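import Pool.Agent.Lib.MP_7682a8_an.KB.Iface

set_option autoImplicit false

open Metric Set MeasureTheory Filter
open scoped Topology

namespace Pool.Agent.Lib.MP_7682a8_an.KB.H70

noncomputable section

theorem fi0 (hS : SchStmt) (hR : RotStmt) (hB : BrnStmt) (hO : OutStmt) (hL : LimStmt) :
    Fi0Stmt := by
  refine hR (1 / 16) ?_
  intro h g δ hom
  have hsw : Sw h g := hS h g hom.dh hom.dg hom.g1 hom.lt
  obtain ⟨ξ, hξ⟩ := hB h g δ hom
  have key : ∀ ρ : ℝ, 0 < ρ → ρ < 1 →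
      Real.log ρ - 2 * Real.log (1 + ρ) ≤ Real.log (4 * δ) := by
    intro ρ hρ0 hρ1
    refine hL h g δ ξ ρ (2 * Real.log (1 + ρ)) (fun _ => 0) hom hξ hsw hρ0 hρ1
      tendsto_const_nhds ?_
    have hev : ∀ᶠ ε in 𝓝[>] (0 : ℝ), ε ∈ Set.Ioo (0 : ℝ) ρ := Ioo_mem_nhdsGT hρ0
    filter_upwards [hev] with ε hε
    have h1 := hO h g δ ξ ε ρ hom hξ hsw hε.1 hε.2.le hρ1
    refine le_trans ?_ h1
    have hlog : Real.log ((1 + ρ) / (1 + ε)) = Real.log (1 + ρ) - Real.log (1 + ε) :=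
      Real.log_div (by linarith) (by linarith [hε.1])
    have hpos : 0 ≤ Real.log (1 + ε) := Real.log_nonneg (by linarith [hε.1])
    rw [hlog]
    have hpi := Real.pi_pos
    nlinarith [mul_nonneg hpi.le hpos]
  have hlim : Tendsto (fun ρ : ℝ => Real.log ρ - 2 * Real.log (1 + ρ)) (𝓝[<] (1 : ℝ))
      (𝓝 (Real.log 1 - 2 * Real.log (1 + 1))) := by
    have hc : ContinuousAt (fun ρ : ℝ => Real.log ρ - 2 * Real.log (1 + ρ)) 1 := by
      refine ContinuousAt.sub (Real.continuousAt_log one_ne_zero) ?_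
      refine ContinuousAt.mul continuousAt_const ?_
      refine ContinuousAt.log (by fun_prop) (by norm_num)
    exact hc.tendsto.mono_left nhdsWithin_le_nhds
  have hle : Real.log 1 - 2 * Real.log (1 + 1) ≤ Real.log (4 * δ) := by
    refine le_of_tendsto hlim ?_
    have hev : ∀ᶠ ρ in 𝓝[<] (1 : ℝ), ρ ∈ Set.Ioo (0 : ℝ) 1 := Ioo_mem_nhdsLT one_pos
    filter_upwards [hev] with ρ hρ
    exact key ρ hρ.1 hρ.2
  have h4 : Real.log (1 / 4) = Real.log 1 - 2 * Real.log (1 + 1) := by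
    have e1 : (1 / 4 : ℝ) = 1 / (2 ^ 2) := by norm_num
    rw [e1, Real.log_div one_ne_zero (by norm_num), Real.log_pow]
    norm_num
  rw [← h4] at hle
  have h5 : (1 / 4 : ℝ) ≤ 4 * δ := by
    have := (Real.log_le_log_iff (by norm_num : (0 : ℝ) < 1 / 4) (by linarith [hom.pos])).1 hle
    exact this
  linarith

end

end Pool.Agent.Lib.MP_7682a8_an.KB.H70
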