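import Pool.Agent.Lib.MP_7682a8_an.KB.Iface

set_option autoImplicit false

open Metric Set MeasureTheory Filter
open scoped Topology

namespace Pool.Agent.Lib.MP_7682a8_an.KB.H70

noncomputable section

theorem gri (hS : SchStmt) (hK : KtrStmt) : GriStmt := by
  intro d h g δ hd hcov hom c hc
  have hsw : Sw h g := hS h g hom.dh hom.dg hom.g1 hom.lt
  have h1 := hK d hd hcov h g hom.dh hom.dg hom.lt hom.inj c hc (-(δ : ℂ)) hom.om
  have hB := hsw c hc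
  have hlt := hom.lt c hc
  have hr : ‖c‖ < 1 := by simpa using hc
  have hr0 : 0 ≤ ‖c‖ := norm_nonneg c
  have hB0 : 0 ≤ ‖deriv g c‖ := norm_nonneg _
  have hA0 : 0 < ‖deriv h c‖ := lt_of_le_of_lt hB0 hlt
  have hN : ‖-(δ : ℂ) - ff h g c‖ = ‖ff h g c + δ‖ := by
    rw [← norm_neg]
    congr 1
    ring
  have h2 : ‖starRingEnd ℂ (deriv h c) * (-(δ : ℂ) - ff h g c) -
      starRingEnd ℂ (deriv g c) * starRingEnd ℂ (-(δ : ℂ) - ff h g c)‖ ≤
      (‖deriv h c‖ + ‖deriv g c‖) * ‖ff h g c + δ‖ := by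
    refine (norm_sub_le _ _).trans ?_
    rw [norm_mul, norm_mul, RCLike.norm_conj, RCLike.norm_conj, RCLike.norm_conj, hN]
    exact le_of_eq (by ring)
  have h3 := h1.trans h2
  have hs : 0 < ‖deriv h c‖ + ‖deriv g c‖ := by linarith
  have h4 : d * ((1 - ‖c‖ ^ 2) * (‖deriv h c‖ - ‖deriv g c‖)) ≤ ‖ff h g c + δ‖ := by
    refine le_of_mul_le_mul_left ?_ hs
    refine le_trans (le_of_eq ?_) h3
    ring
  have hr2 : 0 ≤ 1 - ‖c‖ ^ 2 := by nlinarith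
  have h5 : (1 - ‖c‖) * ‖deriv h c‖ ≤ ‖deriv h c‖ - ‖deriv g c‖ := by linarith
  have h6 : d * ((1 - ‖c‖ ^ 2) * ((1 - ‖c‖) * ‖deriv h c‖)) ≤
      d * ((1 - ‖c‖ ^ 2) * (‖deriv h c‖ - ‖deriv g c‖)) :=
    mul_le_mul_of_nonneg_left (mul_le_mul_of_nonneg_left h5 hr2) hd.le
  refine le_trans (le_of_eq ?_) (h6.trans h4)
  ring

end

end Pool.Agent.Lib.MP_7682a8_an.KB.H70
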